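import Pool.Agent.Y152.RP.Stm

/-! The logarithmic inequality and the sum over numbers of absolute value one. -/

set_option autoImplicit false

namespace Pool.Agent.Y407.RP

open Pool.Agent.Y152.RP

/-- The logarithmic inequality. -/
theorem logIneq : Pool.Agent.Y152.RP.LogStm := by
  intro κ z hκ0 hκ1 hz0 hz1
  have hpos : ∀ x ∈ Set.Ico (0 : ℝ) 1, 0 < 1 - x * z := by
    intro x hx
    nlinarith [hx.1, hx.2]
  have hder : ∀ x ∈ Set.Ico (0 : ℝ) 1, HasDerivAt (fun x : ℝ => Real.log (1 - x * z) -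
      (z ^ 2 * Real.log (1 - x) - x * z * (1 - z)))
      ((-z) / (1 - x * z) - (z ^ 2 * (-1 / (1 - x)) - z * (1 - z))) x := by
    intro x hx
    have h1 : HasDerivAt (fun x : ℝ => 1 - x * z) (-z) x := by
      have := ((hasDerivAt_id x).mul_const z).const_sub 1
      simpa using this
    have h2 : HasDerivAt (fun x : ℝ => 1 - x) (-1) x := by
      have := (hasDerivAt_id x).const_sub 1
      simpa using this
    have h3 : HasDerivAt (fun x : ℝ => x * z * (1 - z)) (z * (1 - z)) x := by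
      have := ((hasDerivAt_id x).mul_const z).mul_const (1 - z)
      simpa using this
    exact (h1.log (hpos x hx).ne').sub (((h2.log (by linarith [hx.2])).const_mul (z ^ 2)).sub h3)
  have hmono : MonotoneOn (fun x : ℝ => Real.log (1 - x * z) -
      (z ^ 2 * Real.log (1 - x) - x * z * (1 - z))) (Set.Ico 0 1) := by
    apply monotoneOn_of_deriv_nonneg (convex_Ico 0 1)
    · intro x hx
      exact (hder x hx).continuousAt.continuousWithinAt
    · intro x hx
      exact (hder x (interior_subset hx)).differentiableAt.differentiableWithinAt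
    · intro x hx
      have hx' := interior_subset hx
      rw [(hder x hx').deriv]
      have h1 := hpos x hx'
      have h2 : 0 < 1 - x := by linarith [hx'.2]
      have h3 : (-z) / (1 - x * z) - (z ^ 2 * (-1 / (1 - x)) - z * (1 - z)) =
          (x ^ 2 * z ^ 2 * (1 - z)) / ((1 - x) * (1 - x * z)) := by
        rw [eq_div_iff (mul_pos h2 h1).ne']
        have i1 : (-z) / (1 - x * z) * (1 - x * z) = -z := div_mul_cancel₀ _ h1.ne'
        have i2 : (-1 / (1 - x)) * (1 - x) = -1 := div_mul_cancel₀ _ h2.ne'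
        linear_combination (1 - x) * i1 - z ^ 2 * (1 - x * z) * i2
      rw [h3]
      apply div_nonneg _ (mul_pos h2 h1).le
      apply mul_nonneg (by positivity)
      linarith
  have h := hmono (⟨le_rfl, one_pos⟩ : (0 : ℝ) ∈ Set.Ico (0 : ℝ) 1) ⟨hκ0, hκ1⟩ hκ0
  simp only [zero_mul, sub_zero, Real.log_one, mul_zero] at h
  linarith

/-- The sum over numbers of absolute value one. -/
theorem logSum : Pool.Agent.Y152.RP.LogSumStm := by
  intro S hS u v hu hv huv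
  obtain ⟨s, hs⟩ : ∃ s, s = Real.sqrt u := ⟨_, rfl⟩
  obtain ⟨t, ht⟩ : ∃ t, t = Real.sqrt v := ⟨_, rfl⟩
  rw [← hs, ← ht]
  have hu1 : (1 : ℝ) ≤ u := by exact_mod_cast hu
  have hv1 : (1 : ℝ) ≤ v := by exact_mod_cast hv
  have hs2 : s ^ 2 = u := by rw [hs]; exact Real.sq_sqrt (by positivity)
  have ht2 : t ^ 2 = v := by rw [ht]; exact Real.sq_sqrt (by positivity)
  have hs0 : 0 < s := by rw [hs]; exact Real.sqrt_pos.2 (by positivity)
  have ht0 : 0 < t := by rw [ht]; exact Real.sqrt_pos.2 (by positivity)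
  have huv3 : (3 : ℝ) ≤ (u : ℝ) + v := by
    have : 3 ≤ u + v := by omega
    exact_mod_cast this
  -- A and M
  obtain ⟨A, hA⟩ : ∃ A, A = (t - s) ^ 2 := ⟨_, rfl⟩
  obtain ⟨M, hM⟩ : ∃ M, M = A + 3 * (s * t) := ⟨_, rfl⟩
  have hMe : M = u + v + s * t := by rw [hM, hA, ← hs2, ← ht2]; ring
  have hst0 : 0 < s * t := mul_pos hs0 ht0
  have hst1 : s * t ≤ ((u : ℝ) + v) / 2 := by rw [← hs2, ← ht2]; nlinarith [sq_nonneg (s - t)]
  have hA1 : 1 / (2 * ((u : ℝ) + v)) ≤ A := by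
    have h1 : (1 : ℝ) ≤ ((v : ℝ) - u) ^ 2 := by
      have h2 : (1 : ℤ) ≤ ((v : ℤ) - u) ^ 2 := by
        have h3 : (v : ℤ) - u ≠ 0 := by omega
        have h4 := sq_pos_of_ne_zero h3
        omega
      exact_mod_cast h2
    have h2 : ((v : ℝ) - u) ^ 2 = A * (t + s) ^ 2 := by rw [hA, ← hs2, ← ht2]; ring
    have h3 : (t + s) ^ 2 ≤ 2 * ((u : ℝ) + v) := by
      rw [← hs2, ← ht2]; nlinarith [sq_nonneg (s - t)]
    have hA0 : 0 ≤ A := by rw [hA]; positivity
    rw [div_le_iff₀ (by positivity)]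
    nlinarith [mul_le_mul_of_nonneg_left h3 hA0]
  have hA0 : 0 < A := lt_of_lt_of_le (by positivity) hA1
  have hM0 : 0 < M := by rw [hM]; positivity
  have hMA : A ≤ M := by rw [hM]; linarith
  have hM1 : (u : ℝ) + v ≤ M := by rw [hMe]; linarith
  have hM2 : M ≤ 2 * ((u : ℝ) + v) := by rw [hMe]; linarith
  obtain ⟨κ, hκ⟩ : ∃ κ, κ = 3 * (s * t) / M := ⟨_, rfl⟩
  have hκ0 : 0 ≤ κ := by rw [hκ]; positivity
  have hκ1 : κ < 1 := by rw [hκ, div_lt_one hM0, hM]; linarith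
  have h1κ : 1 - κ = A / M := by
    rw [hκ, eq_div_iff hM0.ne', sub_mul, div_mul_cancel₀ _ hM0.ne', one_mul, hM]; ring
  obtain ⟨L, hL⟩ : ∃ L, L = Real.log (2 * ((u : ℝ) + v)) := ⟨_, rfl⟩
  obtain ⟨Λ, hΛ⟩ : ∃ Λ, Λ = Real.log M - Real.log A := ⟨_, rfl⟩
  have hlog : Real.log (1 - κ) = - Λ := by
    rw [h1κ, Real.log_div hA0.ne' hM0.ne', hΛ]; ring
  have hΛ0 : 0 ≤ Λ := by rw [hΛ]; linarith [Real.log_le_log hA0 hMA]
  have hLA : - L ≤ Real.log A := by
    have := Real.log_le_log (by positivity) hA1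
    rw [one_div, Real.log_inv] at this
    rw [hL]; exact this
  have hLM : Real.log M ≤ L := by rw [hL]; exact Real.log_le_log hM0 hM2
  have hΛL : Λ ≤ 2 * L := by rw [hΛ]; linarith
  have hL1 : 1 ≤ L := by
    rw [hL, Real.le_log_iff_exp_le (by positivity)]
    have := Real.exp_one_lt_d9
    linarith
  have hmain : (1 / 3 : ℝ) * Real.log (((u : ℝ) + v) / 2) ≤ 2 / 3 * Real.log M + 1 / 3 * Real.log A := by
    have h1 : Real.log (((u : ℝ) + v) / 2) = 2 * Real.log ((u : ℝ) + v) - L := by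
      rw [hL, Real.log_div (by positivity) (by norm_num), Real.log_mul (by norm_num) (by positivity)]
      ring
    have h2 : Real.log ((u : ℝ) + v) ≤ Real.log M := Real.log_le_log (by positivity) hM1
    rw [h1]; linarith
  -- one term
  have hterm : ∀ w ∈ S, Real.log M - Λ * (1 / 3 + (4 * w.re + 2 * (w ^ 2).re) / 9) -
      κ * ((2 * w.re - 2 * (w ^ 2).re) / 9) ≤
      Real.log (‖((t : ℝ) : ℂ) - ((s : ℝ) : ℂ) * w‖ ^ 2) := by
    intro w hw
    have hn : w.re ^ 2 + w.im ^ 2 = 1 := by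
      have h1 := Complex.sq_norm w
      rw [hS w hw, Complex.normSq_apply] at h1
      linarith
    have hd : (w ^ 2).re = 2 * w.re ^ 2 - 1 := by
      rw [sq w, Complex.mul_re]
      linarith
    have hc1 : w.re ≤ 1 := by nlinarith [sq_nonneg w.im]
    have hc0 : -1 ≤ w.re := by nlinarith [sq_nonneg w.im]
    obtain ⟨z, hz⟩ : ∃ z, z = (1 + 2 * w.re) / 3 := ⟨_, rfl⟩
    have h2 : ‖((t : ℝ) : ℂ) - ((s : ℝ) : ℂ) * w‖ ^ 2 = M * (1 - κ * z) := by
      rw [Complex.sq_norm, Complex.normSq_apply]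
      simp only [Complex.sub_re, Complex.sub_im, Complex.re_ofReal_mul, Complex.im_ofReal_mul,
        Complex.ofReal_re, Complex.ofReal_im]
      have h3 : M * (1 - κ * z) = M - (κ * M) * z := by ring
      have h4 : κ * M = 3 * (s * t) := by rw [hκ]; exact div_mul_cancel₀ _ hM0.ne'
      rw [h3, h4, hz, hM, hA]
      linear_combination s ^ 2 * hn
    have h5 := logIneq κ z hκ0 hκ1 (by rw [hz]; linarith) (by rw [hz]; linarith)
    have h6 : 0 < 1 - κ * z := by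
      have : z ≤ 1 := by rw [hz]; linarith
      nlinarith
    rw [h2, Real.log_mul hM0.ne' h6.ne']
    rw [hlog] at h5
    have h7 : z ^ 2 = 1 / 3 + (4 * w.re + 2 * (w ^ 2).re) / 9 := by rw [hz, hd]; ring
    have h8 : κ * z * (1 - z) = κ * ((2 * w.re - 2 * (w ^ 2).re) / 9) := by rw [hz, hd]; ring
    rw [h7, h8] at h5
    linarith
  refine le_trans ?_ (Finset.sum_le_sum hterm)
  obtain ⟨S1, hS1⟩ : ∃ S1, S1 = ∑ w ∈ S, w.re := ⟨_, rfl⟩
  obtain ⟨S2, hS2⟩ : ∃ S2, S2 = ∑ w ∈ S, (w ^ 2).re := ⟨_, rfl⟩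
  have hsum : ∑ w ∈ S, (Real.log M - Λ * (1 / 3 + (4 * w.re + 2 * (w ^ 2).re) / 9) -
      κ * ((2 * w.re - 2 * (w ^ 2).re) / 9)) =
      S.card * Real.log M - Λ * (S.card / 3 + (4 * S1 + 2 * S2) / 9) -
      κ * ((2 * S1 - 2 * S2) / 9) := by
    simp only [Finset.sum_sub_distrib, ← Finset.mul_sum, Finset.sum_add_distrib, ← Finset.sum_div,
      Finset.sum_const, nsmul_eq_mul, ← hS1, ← hS2]
    ring
  rw [hsum]
  obtain ⟨a, ha⟩ : ∃ a, a = ‖∑ w ∈ S, w‖ := ⟨_, rfl⟩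
  obtain ⟨b, hb⟩ : ∃ b, b = ‖∑ w ∈ S, w ^ 2‖ := ⟨_, rfl⟩
  have hS1a : |S1| ≤ a := by
    rw [hS1, ha, ← Complex.re_sum]; exact Complex.abs_re_le_norm _
  have hS2b : |S2| ≤ b := by
    rw [hS2, hb, ← Complex.re_sum]; exact Complex.abs_re_le_norm _
  rw [← ha, ← hb, ← hL]
  have hm0 : (0 : ℝ) ≤ S.card := by positivity
  have hm := mul_le_mul_of_nonneg_left hmain hm0
  obtain ⟨p1, p2⟩ := abs_le.1 hS1a
  obtain ⟨p3, p4⟩ := abs_le.1 hS2b
  have ha0 : 0 ≤ a := by rw [ha]; exact norm_nonneg _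
  have hb0 : 0 ≤ b := by rw [hb]; exact norm_nonneg _
  have e1 : Λ * ((4 * S1 + 2 * S2) / 9) ≤ 2 * L * ((4 * a + 2 * b) / 9) := by
    have h1 : Λ * ((4 * S1 + 2 * S2) / 9) ≤ Λ * ((4 * a + 2 * b) / 9) :=
      mul_le_mul_of_nonneg_left (by linarith) hΛ0
    exact h1.trans (mul_le_mul_of_nonneg_right hΛL (by positivity))
  have e2 : κ * ((2 * S1 - 2 * S2) / 9) ≤ L * ((2 * a + 2 * b) / 9) := by
    have h1 : κ * ((2 * S1 - 2 * S2) / 9) ≤ κ * ((2 * a + 2 * b) / 9) :=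
      mul_le_mul_of_nonneg_left (by linarith) hκ0
    exact h1.trans (mul_le_mul_of_nonneg_right (by linarith) (by positivity))
  have e3 : 0 ≤ L * a := by positivity
  have e4 : 0 ≤ L * b := by positivity
  have q : (S.card : ℝ) * Real.log M - Λ * (S.card / 3) =
      S.card * (2 / 3 * Real.log M + 1 / 3 * Real.log A) := by rw [hΛ]; ring
  linarith

end Pool.Agent.Y407.RP
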